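import Pool.Agent.helper3.XT.Spec

/-!
Row `xt:SEL` (MP_51d945_co): greedy choice of disjoint sets.
-/

set_option autoImplicit false

namespace Pool.Agent.XT

open Finset SimpleGraph

private theorem SEL_one {V : Type} [DecidableEq V] (A : Finset (Finset V)) (U : Finset V)
    (hA : (A : Set (Finset V)).PairwiseDisjoint id) (h : U.card < A.card) : ∃ S ∈ A, Disjoint S U := by
  by_contra hcon
  push Not at hcon
  have h1 : ∀ S ∈ A, ∃ x, x ∈ S ∧ x ∈ U := fun S hS => Finset.not_disjoint_iff.mp (hcon S hS)
  have hne : Nonempty V := by
    obtain ⟨S, hS⟩ := Finset.card_pos.mp (show 0 < A.card by omega)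
    obtain ⟨x, _⟩ := h1 S hS
    exact ⟨x⟩
  choose! f hf using h1
  have h2 : A.card ≤ U.card := by
    apply Finset.card_le_card_of_injOn f
    · intro S hS
      exact Finset.mem_coe.mpr (hf S (Finset.mem_coe.mp hS)).2
    · intro S hS T hT hST
      by_contra hne
      have hd : Disjoint S T := hA hS hT hne
      have a1 := (hf S (Finset.mem_coe.mp hS)).1
      have a2 := (hf T (Finset.mem_coe.mp hT)).1
      rw [hST] at a1
      exact Finset.disjoint_left.mp hd a1 a2
  omega

theorem SEL : SEL_stmt := by
  intro ι V _ _ _ W s N F hN hs hd hlt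
  have key : ∀ J : Finset ι, ∃ g : ι → Finset V, (∀ i ∈ J, g i ∈ F i ∧ Disjoint (g i) W) ∧
      ∀ i ∈ J, ∀ j ∈ J, i ≠ j → Disjoint (g i) (g j) := by
    intro J
    induction J using Finset.induction_on with
    | empty => exact ⟨fun _ => ∅, by simp, by simp⟩
    | insert i J hi ih =>
      obtain ⟨g, h1, h2⟩ := ih
      have hU : (J.biUnion g ∪ W).card < (F i).card := by
        have c1 : (J.biUnion g).card ≤ J.card * s :=
          Finset.card_biUnion_le_card_mul J g s (fun j hj => hs j _ (h1 j hj).1)
        have c2 : J.card ≤ Fintype.card ι := Finset.card_le_univ J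
        have c3 : J.card * s ≤ Fintype.card ι * s := Nat.mul_le_mul_right s c2
        have c4 := Finset.card_union_le (J.biUnion g) W
        have c5 := hN i
        omega
      obtain ⟨S, hS, hSU⟩ := SEL_one (F i) (J.biUnion g ∪ W) (hd i) hU
      rw [Finset.disjoint_union_right] at hSU
      have hSJ : ∀ j ∈ J, Disjoint S (g j) := fun j hj =>
        Finset.disjoint_of_subset_right (Finset.subset_biUnion_of_mem g hj) hSU.1
      refine ⟨Function.update g i S, ?_, ?_⟩
      · intro j hj
        rw [Finset.mem_insert] at hj
        by_cases hji : j = i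
        · subst hji
          rw [Function.update_self]
          exact ⟨hS, hSU.2⟩
        · rw [Function.update_of_ne hji]
          exact h1 j (hj.resolve_left hji)
      · intro j hj k hk hjk
        rw [Finset.mem_insert] at hj hk
        by_cases hji : j = i
        · subst hji
          have hkj : k ≠ j := fun h => hjk h.symm
          rw [Function.update_self, Function.update_of_ne hkj]
          exact hSJ k (hk.resolve_left hkj)
        · by_cases hki : k = i
          · subst hki
            rw [Function.update_self, Function.update_of_ne hji]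
            exact (hSJ j (hj.resolve_left hji)).symm
          · rw [Function.update_of_ne hji, Function.update_of_ne hki]
            exact h2 j (hj.resolve_left hji) k (hk.resolve_left hki) hjk
  obtain ⟨g, h1, h2⟩ := key Finset.univ
  exact ⟨g, fun i => (h1 i (Finset.mem_univ _)).1, fun i => (h1 i (Finset.mem_univ _)).2,
    fun i j hij => h2 i (Finset.mem_univ _) j (Finset.mem_univ _) hij⟩

end Pool.Agent.XT
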