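import Pool.Agent.helper3.XT.Spec

/-!
Row `xt:TGF` (MP_51d945_co).
-/

set_option autoImplicit false

namespace Pool.Agent.XT

open Finset SimpleGraph

private theorem TGF_B {n : ℕ} (D : ℝ) (B : FS n) (hP : ∀ p, ((dP B p).card : ℝ) ≤ D) : (B.card : ℝ) ≤ n * D := by
  classical
  have h1 : B.card = ∑ p : Fin n, (B.filter (fun a => a.1 = p)).card :=
    Finset.card_eq_sum_card_fiberwise (fun a _ => Finset.mem_coe.mpr (Finset.mem_univ _))
  have h2 : ∀ p : Fin n, ((B.filter (fun a => a.1 = p)).card : ℝ) ≤ D := by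
    intro p
    refine le_trans ?_ (hP p)
    apply Nat.cast_le.mpr
    apply Finset.card_le_card_of_injOn Prod.snd
    · intro a ha
      rw [Finset.mem_coe, Finset.mem_filter] at ha
      rw [Finset.mem_coe]
      unfold dP
      rw [Finset.mem_filter]
      refine ⟨Finset.mem_univ _, ?_⟩
      rw [← ha.2]
      exact ha.1
    · intro a ha b hb hab
      rw [Finset.mem_coe, Finset.mem_filter] at ha hb
      exact Prod.ext (ha.2.trans hb.2.symm) hab
  rw [h1]
  push_cast
  calc ∑ p : Fin n, ((B.filter (fun a => a.1 = p)).card : ℝ) ≤ ∑ _p : Fin n, D := Finset.sum_le_sum fun p _ => h2 p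
    _ = n * D := by rw [Finset.sum_const, Finset.card_univ, Fintype.card_fin, nsmul_eq_mul]

theorem TGF : TGF_stmt := by
  classical
  intro r hr
  refine ⟨1000 / r, ?_⟩
  intro n D B hD hP hL hC hG
  have hCD : 500 ≤ r / 2 * D := by
    rw [div_le_iff₀ hr] at hC
    linarith
  have hB := TGF_B D B hP
  have hfib : (GoodS B).card = ∑ b ∈ B, ((GoodS B).filter (fun e => (e.1, e.2.1) = b)).card := by
    apply Finset.card_eq_sum_card_fiberwise
    intro e he
    rw [Finset.mem_coe] at he
    unfold GoodS at he
    rw [Finset.mem_filter] at he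
    exact Finset.mem_coe.mpr he.2.2.1
  have hle : ∀ b ∈ B, ((GoodS B).filter (fun e => (e.1, e.2.1) = b)).card ≤
      (Finset.univ.filter (fun y => Good B b.1 b.2 y)).card := by
    intro b _
    apply Finset.card_le_card_of_injOn (fun e => e.2.2)
    · intro e he
      rw [Finset.mem_coe, Finset.mem_filter] at he
      obtain ⟨h1, h2⟩ := he
      unfold GoodS at h1
      rw [Finset.mem_filter] at h1
      rw [Finset.mem_coe, Finset.mem_filter]
      refine ⟨Finset.mem_univ _, ?_⟩
      rw [← h2]
      exact h1.2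
    · intro e he e' he' hee
      rw [Finset.mem_coe, Finset.mem_filter] at he he'
      have h1 := he.2.trans he'.2.symm
      rw [Prod.mk.injEq] at h1
      exact Prod.ext h1.1 (Prod.ext h1.2 hee)
  have hD2 : ∀ b : Fin n × Fin n, ((Finset.univ.filter (fun y => Good B b.1 b.2 y)).card : ℝ) ≤ D := by
    intro b
    refine le_trans ?_ (hL b.2)
    apply Nat.cast_le.mpr
    apply Finset.card_le_card
    intro y hy
    rw [Finset.mem_filter] at hy
    unfold dL
    rw [Finset.mem_filter]
    exact ⟨Finset.mem_univ _, hy.2.2.2.1⟩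
  have hterm : ∀ b ∈ B, (((GoodS B).filter (fun e => (e.1, e.2.1) = b)).card : ℝ) ≤
      (if b ∈ GF B then D else 0) + 500 := by
    intro b hb
    have h1 : (((GoodS B).filter (fun e => (e.1, e.2.1) = b)).card : ℝ) ≤
      ((Finset.univ.filter (fun y => Good B b.1 b.2 y)).card : ℝ) := Nat.cast_le.mpr (hle b hb)
    by_cases hg : b ∈ GF B
    · rw [if_pos hg]
      linarith [hD2 b]
    · rw [if_neg hg]
      unfold GF at hg
      rw [Finset.mem_filter] at hg
      have h2 : (Finset.univ.filter (fun y => Good B b.1 b.2 y)).card < 500 := by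
        by_contra h3
        exact hg ⟨hb, by omega⟩
      have h3 : ((Finset.univ.filter (fun y => Good B b.1 b.2 y)).card : ℝ) ≤ 500 := by exact_mod_cast h2.le
      linarith
  have hsum : ((GoodS B).card : ℝ) ≤ ((GF B).card : ℝ) * D + 500 * B.card := by
    rw [hfib]
    push_cast
    refine (Finset.sum_le_sum hterm).trans ?_
    rw [Finset.sum_add_distrib, Finset.sum_const, nsmul_eq_mul, ← Finset.sum_filter, Finset.sum_const, nsmul_eq_mul]
    have h1 : (B.filter (fun b => b ∈ GF B)).card ≤ (GF B).card := by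
      apply Finset.card_le_card
      intro b hb
      exact (Finset.mem_filter.mp hb).2
    have h2 : ((B.filter (fun b => b ∈ GF B)).card : ℝ) ≤ (GF B).card := by exact_mod_cast h1
    have h3 := mul_le_mul_of_nonneg_right h2 hD.le
    linarith
  have hn : (0 : ℝ) ≤ n := Nat.cast_nonneg n
  have hfin : (r / 2 * n * D) * D ≤ ((GF B).card : ℝ) * D := by
    have h1 : n * D * 500 ≤ n * D * (r / 2 * D) := mul_le_mul_of_nonneg_left hCD (by positivity)
    nlinarith
  exact le_of_mul_le_mul_right hfin hD

end Pool.Agent.XT
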